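import Mathlib

/-!
Common definitions for the proof of the Huneke-Mustata-Takagi-Watanabe inequality.
-/

set_option autoImplicit false

open Filter Polynomial

namespace HMTW

/-- Power series all of whose coefficients with exponents in the cube `[0,q)^n` vanish. -/
def qI (k : Type*) [Field k] (n q : ℕ) : Ideal (MvPowerSeries (Fin n) k) where
  carrier := {a | ∀ i : Fin n →₀ ℕ, (∀ l, i l < q) → MvPowerSeries.coeff i a = 0}
  add_mem' := by
    intro a b ha hb i hi
    rw [map_add, ha i hi, hb i hi, add_zero]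
  zero_mem' := by
    intro i _
    simp
  smul_mem' := by
    intro c a ha i hi
    classical
    rw [smul_eq_mul, MvPowerSeries.coeff_mul]
    refine Finset.sum_eq_zero fun x hx => ?_
    rw [ha x.2 (fun l => ?_), mul_zero]
    have := Finset.HasAntidiagonal.mem_antidiagonal.1 hx
    have h2 : x.2 l ≤ i l := by rw [← this]; simp
    exact lt_of_le_of_lt h2 (hi l)

theorem mem_qI {k : Type*} [Field k] {n q : ℕ} {a : MvPowerSeries (Fin n) k} :
    a ∈ qI k n q ↔ ∀ i : Fin n →₀ ℕ, (∀ l, i l < q) → MvPowerSeries.coeff i a = 0 := Iff.rfl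

/-- `X_l ^ q` lies in `qI k n q`. -/
theorem X_pow_mem_qI {k : Type*} [Field k] {n : ℕ} (q : ℕ) (l : Fin n) :
    (MvPowerSeries.X l ^ q : MvPowerSeries (Fin n) k) ∈ qI k n q := by
  classical
  intro i hi
  rw [MvPowerSeries.coeff_X_pow, if_neg]
  intro h
  have := hi l
  rw [h] at this
  simp at this

/-- Specialisation: all variables but the last one go to `0`. -/
noncomputable def sp (k : Type*) [Field k] (m : ℕ) :
    MvPowerSeries (Fin (m + 1)) k →+* PowerSeries k where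
  toFun a := PowerSeries.mk fun n => MvPowerSeries.coeff (Finsupp.single (Fin.last m) n) a
  map_one' := by
    classical
    ext n
    rw [PowerSeries.coeff_mk, MvPowerSeries.coeff_one, PowerSeries.coeff_one]
    simp
  map_mul' := by
    classical
    intro a b
    ext n
    rw [PowerSeries.coeff_mk, PowerSeries.coeff_mul, MvPowerSeries.coeff_mul,
      Finsupp.antidiagonal_single, Finset.sum_map]
    simp
  map_zero' := by
    ext; simp
  map_add' := by
    intro a b; ext; simp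

@[simp] theorem coeff_sp {k : Type*} [Field k] {m : ℕ} (a : MvPowerSeries (Fin (m + 1)) k)
    (n : ℕ) : PowerSeries.coeff n (sp k m a) =
      MvPowerSeries.coeff (Finsupp.single (Fin.last m) n) a := by
  simp [sp]

/-- The induced map on `A[Y]/(f)`. -/
noncomputable def Sp (k : Type*) [Field k] (m : ℕ) (f : (MvPowerSeries (Fin (m + 1)) k)[X]) :
    AdjoinRoot f →+* AdjoinRoot (f.map (sp k m)) :=
  AdjoinRoot.lift ((AdjoinRoot.of (f.map (sp k m))).comp (sp k m))
    (AdjoinRoot.root (f.map (sp k m))) (by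
      rw [← Polynomial.eval₂_map, AdjoinRoot.eval₂_root])

theorem Sp_of {k : Type*} [Field k] {m : ℕ} (f : (MvPowerSeries (Fin (m + 1)) k)[X])
    (a : MvPowerSeries (Fin (m + 1)) k) :
    Sp k m f (AdjoinRoot.of f a) = AdjoinRoot.of (f.map (sp k m)) (sp k m a) := by
  simp [Sp]

theorem Sp_mk {k : Type*} [Field k] {m : ℕ} (f : (MvPowerSeries (Fin (m + 1)) k)[X])
    (P : (MvPowerSeries (Fin (m + 1)) k)[X]) :
    Sp k m f (AdjoinRoot.mk f P) = AdjoinRoot.mk (f.map (sp k m)) (P.map (sp k m)) := by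
  rw [Sp, AdjoinRoot.lift_mk, ← Polynomial.eval₂_map, ← AdjoinRoot.aeval_eq, Polynomial.aeval_def,
    AdjoinRoot.algebraMap_eq]

/-! ### Dropping the first variable -/

/-- The map putting the first variable equal to `0`. -/
noncomputable def pr (k : Type*) [Field k] (m : ℕ) :
    MvPowerSeries (Fin (m + 2)) k →+* MvPowerSeries (Fin (m + 1)) k :=
  (PowerSeries.constantCoeff (R := MvPowerSeries (Fin (m + 1)) k)).comp
    (MvPowerSeries.finSuccEquiv k (m + 1)).toRingEquiv.toRingHom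

@[simp] theorem coeff_pr {k : Type*} [Field k] {m : ℕ} (a : MvPowerSeries (Fin (m + 2)) k)
    (x : Fin (m + 1) →₀ ℕ) :
    MvPowerSeries.coeff x (pr k m a) = MvPowerSeries.coeff (x.cons 0) a := by
  rw [← MvPowerSeries.coeff_coeff_finSuccEquiv]
  simp [pr]

/-- The induced map on `A[Y]/(f)`. -/
noncomputable def Pr (k : Type*) [Field k] (m : ℕ) (f : (MvPowerSeries (Fin (m + 2)) k)[X]) :
    AdjoinRoot f →+* AdjoinRoot (f.map (pr k m)) :=
  AdjoinRoot.lift ((AdjoinRoot.of (f.map (pr k m))).comp (pr k m))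
    (AdjoinRoot.root (f.map (pr k m))) (by
      rw [← Polynomial.eval₂_map, AdjoinRoot.eval₂_root])

theorem Pr_of {k : Type*} [Field k] {m : ℕ} (f : (MvPowerSeries (Fin (m + 2)) k)[X])
    (a : MvPowerSeries (Fin (m + 2)) k) :
    Pr k m f (AdjoinRoot.of f a) = AdjoinRoot.of (f.map (pr k m)) (pr k m a) := by
  simp [Pr]

theorem Pr_mk {k : Type*} [Field k] {m : ℕ} (f : (MvPowerSeries (Fin (m + 2)) k)[X])
    (P : (MvPowerSeries (Fin (m + 2)) k)[X]) :
    Pr k m f (AdjoinRoot.mk f P) = AdjoinRoot.mk (f.map (pr k m)) (P.map (pr k m)) := by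
  rw [Pr, AdjoinRoot.lift_mk, ← Polynomial.eval₂_map, ← AdjoinRoot.aeval_eq, Polynomial.aeval_def,
    AdjoinRoot.algebraMap_eq]

/-! ### Asymptotic bounds -/

/-- `length (M / J^n M) <= (rho / d! + eps) n^d` for large `n`. -/
def Up (S : Type*) [CommRing S] (J : Ideal S) (d : ℕ) (M : Type*) [AddCommGroup M] [Module S M]
    (ρ : ℕ) : Prop :=
  ∀ ε : ℝ, 0 < ε → ∀ᶠ n : ℕ in atTop,
    ((Module.length S (M ⧸ (J ^ n • ⊤ : Submodule S M))).toNat : ℝ) ≤
      ((ρ : ℝ) / (d.factorial : ℝ) + ε) * (n : ℝ) ^ d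

/-- `(rho * kap - eps) n^d <= length (M / I^n M)` for large `n`. -/
def Lo (S : Type*) [CommRing S] (I : Ideal S) (d : ℕ) (kap : ℝ) (M : Type*) [AddCommGroup M]
    [Module S M] (ρ : ℕ) : Prop :=
  ∀ ε : ℝ, 0 < ε → ∀ᶠ n : ℕ in atTop,
    ((ρ : ℝ) * kap - ε) * (n : ℝ) ^ d ≤
      ((Module.length S (M ⧸ (I ^ n • ⊤ : Submodule S M))).toNat : ℝ)

/-- The constant `d^d / (d! c^d)`. -/
noncomputable def kapp (d : ℕ) (c : ℝ) : ℝ := (d : ℝ) ^ d / ((d.factorial : ℝ) * c ^ d)

/-- Structure of a domain `D` finite over `A`, in characteristic `p`. -/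
structure DomData (A D : Type*) [CommRing A] [CommRing D] [Algebra A D] (p : ℕ) where
  s : ℕ
  f : A[X]
  a : A[X]
  b : A[X]
  δ : A
  g : A
  θ : D
  E : Subalgebra A D
  ρ : ℕ
  e : Fin ρ → D
  monic : f.Monic
  deg : 0 < f.natDegree
  g_ne : g ≠ 0
  δ_ne : δ ≠ 0
  hab : a * f + b * derivative f = C δ
  root : aeval θ f = 0
  dvd : ∀ h : A[X], aeval θ h = 0 → f ∣ h
  θ_mem : θ ∈ E
  pow_mem : ∀ u : D, u ^ (p ^ s) ∈ E
  denomE : ∀ u ∈ E, ∃ h : A[X], g • u = aeval θ h
  indep : ∀ v : Fin ρ → D, (∀ j, v j ∈ E) → ∑ j, v j * e j = 0 → ∀ j, v j = 0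
  ρ_pos : 0 < ρ
  denomD : ∀ u : D, ∃ h : Fin ρ → A[X], g • u = ∑ j, aeval θ (h j) * e j

end HMTW
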