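import Pool.Agent.Work.MP_286f1f_ag.Bd.B05
import Pool.Agent.Work.MP_286f1f_ag.Bd.B04

set_option autoImplicit false

open Filter Polynomial

namespace HMTW

/-- m-primary ideals of a Noetherian local ring contain a power of the maximal ideal. -/
theorem pow_le_of_radical {R : Type*} [CommRing R] [IsLocalRing R] [IsNoetherianRing R]
    (I : Ideal R) (h : I.radical = IsLocalRing.maximalIdeal R) :
    ∃ n, IsLocalRing.maximalIdeal R ^ n ≤ I := by
  have := I.exists_radical_pow_le_of_fg (by
    rw [h]; exact IsNoetherian.noetherian _)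
  rwa [h] at this

theorem length_ne_top {R : Type*} [CommRing R] [IsLocalRing R] [IsNoetherianRing R]
    (I : Ideal R) (h : ∃ n, IsLocalRing.maximalIdeal R ^ n ≤ I) :
    Module.length R (R ⧸ I) ≠ ⊤ := by
  obtain ⟨n, hn⟩ := h
  rcases eq_or_ne I ⊤ with rfl | hI
  · have : Subsingleton (R ⧸ (⊤ : Ideal R)) := Ideal.Quotient.subsingleton_iff.2 rfl
    rw [Module.length_eq_zero]
    exact ENat.zero_ne_top
  have : Nontrivial (R ⧸ I) := Ideal.Quotient.nontrivial_iff.2 hI
  have : IsLocalRing (R ⧸ I) := IsLocalRing.of_surjective' _ Ideal.Quotient.mk_surjective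
  have hart : IsArtinianRing (R ⧸ I) := by
    rw [isArtinianRing_iff_isNilpotent_maximalIdeal]
    refine ⟨n, ?_⟩
    have hmap : (IsLocalRing.maximalIdeal R).map (Ideal.Quotient.mk I) =
        IsLocalRing.maximalIdeal (R ⧸ I) := by
      have hm : ((IsLocalRing.maximalIdeal R).map (Ideal.Quotient.mk I)).IsMaximal := by
        have := Ideal.map_eq_top_or_isMaximal_of_surjective (Ideal.Quotient.mk I)
          Ideal.Quotient.mk_surjective (IsLocalRing.maximalIdeal.isMaximal R)
        refine this.resolve_left fun h => ?_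
        have h1 : (IsLocalRing.maximalIdeal R) ⊔ I = ⊤ := by
          have := congrArg (Ideal.comap (Ideal.Quotient.mk I)) h
          rwa [Ideal.comap_map_of_surjective _ Ideal.Quotient.mk_surjective, Ideal.comap_top,
            ← RingHom.ker_eq_comap_bot, Ideal.mk_ker] at this
        rw [sup_eq_left.2 (IsLocalRing.le_maximalIdeal hI)] at h1
        exact (IsLocalRing.maximalIdeal.isMaximal R).ne_top h1
      exact IsLocalRing.eq_maximalIdeal hm
    rw [← hmap, ← Ideal.map_pow, Ideal.zero_eq_bot, Ideal.map_eq_bot_iff_le_ker, Ideal.mk_ker]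
    exact hn
  rw [Module.length_eq_of_surjective (R := R ⧸ I) (S := R) (M := R ⧸ I)
    Ideal.Quotient.mk_surjective]
  exact Module.length_ne_top

/-- The case of positive dimension. -/
theorem main_pos (R : Type) [CommRing R] [IsLocalRing R] [IsNoetherianRing R]
    (p : ℕ) [Fact p.Prime] [CharP R p] (m : ℕ) (x : Fin (m + 1) → R)
    (hx : ∀ i, x i ∈ IsLocalRing.maximalIdeal R)
    (hrad : (Ideal.span (Set.range x)).radical = IsLocalRing.maximalIdeal R)
    (I : Ideal R) (hI : I.radical = IsLocalRing.maximalIdeal R) (c eJ ea : ℝ)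
    (hc : Filter.Tendsto
              (fun e : ℕ =>
                ((sInf {N : ℕ | I ^ N ≤ Ideal.span (Set.range (fun i => x i ^ p ^ e))} : ℕ) : ℝ)
                  / (p : ℝ) ^ e)
              Filter.atTop (nhds c))
    (hJ : Filter.Tendsto
              (fun n : ℕ =>
                ((m + 1).factorial : ℝ)
                  * ((Module.length R (R ⧸ (Ideal.span (Set.range x)) ^ n)).toNat : ℝ)
                  / (n : ℝ) ^ (m + 1))
              Filter.atTop (nhds eJ))
    (ha : Filter.Tendsto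
              (fun n : ℕ =>
                ((m + 1).factorial : ℝ) * ((Module.length R (R ⧸ I ^ n)).toNat : ℝ)
                  / (n : ℝ) ^ (m + 1))
              Filter.atTop (nhds ea)) :
    eJ ≤ (c / ((m + 1 : ℕ) : ℝ)) ^ (m + 1) * ea := by
  classical
  obtain ⟨k, _, _, S, _, _, _, φ, hfin, hX, hres, hlen⟩ := exists_model R p (m + 1) x hx hrad
  have hnoe : IsNoetherianRing S :=
    isNoetherian_of_tower (MvPowerSeries (Fin (m + 1)) k)
      (isNoetherian_of_isNoetherianRing_of_finite (MvPowerSeries (Fin (m + 1)) k) S)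
  have hp : 0 < p := (Fact.out : p.Prime).pos
  have hfg : (IsLocalRing.maximalIdeal R).FG := IsNoetherian.noetherian _
  -- maximal ideal powers
  have hmx : ∃ n, IsLocalRing.maximalIdeal R ^ n ≤ Ideal.span (Set.range x) :=
    pow_le_of_radical _ hrad
  have hmI : ∃ n, IsLocalRing.maximalIdeal R ^ n ≤ I := pow_le_of_radical _ hI
  have hIm : I ≤ IsLocalRing.maximalIdeal R := by
    rw [← hI]; exact Ideal.le_radical
  have hmxq : ∀ e : ℕ, ∃ n, IsLocalRing.maximalIdeal R ^ n ≤
      Ideal.span (Set.range (fun i => x i ^ p ^ e)) := by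
    intro e
    refine Ideal.exists_pow_le_of_le_radical_of_fg ?_ hfg
    rw [← hrad]
    refine Ideal.radical_le_radical_iff.2 ?_
    rw [Ideal.span_le]
    rintro _ ⟨i, rfl⟩
    exact ⟨p ^ e, Ideal.subset_span ⟨i, rfl⟩⟩
  have hpowmem : ∀ (K : Ideal R), (∃ n, IsLocalRing.maximalIdeal R ^ n ≤ K) → ∀ j,
      ∃ n, IsLocalRing.maximalIdeal R ^ n ≤ K ^ j := by
    rintro K ⟨n, hn⟩ j
    exact ⟨n * j, by rw [pow_mul]; exact Ideal.pow_right_mono hn j⟩
  -- the ideal generated by the parameters in `S`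
  have hmapX : (Ideal.span (Set.range MvPowerSeries.X)).map
      (algebraMap (MvPowerSeries (Fin (m + 1)) k) S) = (Ideal.span (Set.range x)).map φ := by
    rw [Ideal.map_span, Ideal.map_span, ← Set.range_comp, ← Set.range_comp]
    congr 2
    funext i
    exact hX i
  set N : ℕ → ℕ := fun e => sInf {N : ℕ | I ^ N ≤ Ideal.span (Set.range (fun i => x i ^ p ^ e))}
    with hNdef
  have hN : ∀ e, I ^ N e ≤ Ideal.span (Set.range (fun i => x i ^ p ^ e)) := by
    intro e
    obtain ⟨n, hn⟩ := hmxq e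
    exact Nat.sInf_mem (s := {N : ℕ | I ^ N ≤ Ideal.span (Set.range (fun i => x i ^ p ^ e))})
      ⟨n, (Ideal.pow_right_mono hIm n).trans hn⟩
  obtain ⟨s, hs⟩ := hmI
  have hxm : Ideal.span (Set.range x) ≤ IsLocalRing.maximalIdeal R := by
    rw [Ideal.span_le]; rintro _ ⟨i, rfl⟩; exact hx i
  have hs' : ((Ideal.span (Set.range MvPowerSeries.X)) ^ s).map
        (algebraMap (MvPowerSeries (Fin (m + 1)) k) S) ≤ I.map φ := by
    rw [Ideal.map_pow, hmapX, ← Ideal.map_pow]
    exact Ideal.map_mono ((Ideal.pow_right_mono hxm s).trans hs)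
  have hN' : ∀ e, (I.map φ) ^ N e ≤ Ideal.span (Set.range fun i =>
      algebraMap (MvPowerSeries (Fin (m + 1)) k) S (MvPowerSeries.X i ^ p ^ e)) := by
    intro e
    rw [← Ideal.map_pow]
    refine (Ideal.map_mono (hN e)).trans (le_of_eq ?_)
    rw [Ideal.map_span, ← Set.range_comp]
    congr 2
    funext i
    simp [hX]
  have hfJ : ∀ n, Module.length S (S ⧸ ((Ideal.span (Set.range MvPowerSeries.X)).map
        (algebraMap (MvPowerSeries (Fin (m + 1)) k) S)) ^ n) =
        Module.length R (R ⧸ (Ideal.span (Set.range x)) ^ n) := by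
    intro n
    rw [hmapX, ← Ideal.map_pow, hlen _ (hpowmem _ hmx n)]
  have hfI : ∀ n, Module.length S (S ⧸ (I.map φ) ^ n) = Module.length R (R ⧸ I ^ n) := by
    intro n
    rw [← Ideal.map_pow, hlen _ (hpowmem _ ⟨s, hs⟩ n)]
  obtain ⟨ρ, hρ, hU, hL⟩ := prime_filtration_bound S (m + 1)
    ((Ideal.span (Set.range MvPowerSeries.X)).map
        (algebraMap (MvPowerSeries (Fin (m + 1)) k) S)) (I.map φ)
    (fun n => by rw [hfJ]; exact length_ne_top _ (hpowmem _ hmx n))
    (fun n => by rw [hfI]; exact length_ne_top _ (hpowmem _ ⟨s, hs⟩ n))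
    (kapp (m + 1) c) (0 < c)
    (fun P hP => domain_bound k p m S hres P (I.map φ) s hs' N c hc hN')
  have hfac : (0 : ℝ) < ((m + 1).factorial : ℝ) := by exact_mod_cast Nat.factorial_pos _
  have hc0 : 0 ≤ c := ge_of_tendsto' hc (fun e => by positivity)
  have hea0 : 0 ≤ ea := ge_of_tendsto' ha (fun e => by positivity)
  -- upper bound
  have h1 : eJ ≤ ρ := by
    refine le_of_forall_pos_le_add fun ε hε => ?_
    refine le_of_tendsto hJ ?_
    filter_upwards [hU (ε / ((m + 1).factorial : ℝ)) (by positivity),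
      Filter.eventually_gt_atTop 0] with n hn hn0
    have hn1 : (0 : ℝ) < (n : ℝ) ^ (m + 1) := by positivity
    rw [div_le_iff₀ hn1]
    have h2 : Module.length S (S ⧸ (((Ideal.span (Set.range MvPowerSeries.X)).map
        (algebraMap (MvPowerSeries (Fin (m + 1)) k) S)) ^ n • ⊤ : Submodule S S)) =
        Module.length R (R ⧸ (Ideal.span (Set.range x)) ^ n) := by
      rw [← hfJ, smul_eq_mul, Ideal.mul_top]
    rw [h2] at hn
    calc ((m + 1).factorial : ℝ)
          * ((Module.length R (R ⧸ (Ideal.span (Set.range x)) ^ n)).toNat : ℝ)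
        ≤ ((m + 1).factorial : ℝ) * (((ρ : ℝ) / ((m + 1).factorial : ℝ) +
            ε / ((m + 1).factorial : ℝ)) * (n : ℝ) ^ (m + 1)) :=
          mul_le_mul_of_nonneg_left hn hfac.le
      _ = (ρ + ε) * (n : ℝ) ^ (m + 1) := by field_simp
  have h2 : ((m + 1).factorial : ℝ) * ((ρ : ℝ) * kapp (m + 1) c) ≤ ea := by
    refine le_of_forall_pos_sub_le fun ε hε => ?_
    refine ge_of_tendsto ha ?_
    filter_upwards [hL (ε / ((m + 1).factorial : ℝ)) (by positivity),
      Filter.eventually_gt_atTop 0] with n hn hn0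
    have hn1 : (0 : ℝ) < (n : ℝ) ^ (m + 1) := by positivity
    rw [le_div_iff₀ hn1]
    have h2 : Module.length S (S ⧸ ((I.map φ) ^ n • ⊤ : Submodule S S)) =
        Module.length R (R ⧸ I ^ n) := by
      rw [← hfI, smul_eq_mul, Ideal.mul_top]
    rw [h2] at hn
    calc (((m + 1).factorial : ℝ) * ((ρ : ℝ) * kapp (m + 1) c) - ε) * (n : ℝ) ^ (m + 1)
        = ((m + 1).factorial : ℝ) * (((ρ : ℝ) * kapp (m + 1) c -
            ε / ((m + 1).factorial : ℝ)) * (n : ℝ) ^ (m + 1)) := by field_simp
      _ ≤ _ := mul_le_mul_of_nonneg_left hn hfac.le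
  by_cases hρ0 : ρ = 0
  · subst hρ0
    have : (0 : ℝ) ≤ (c / ((m + 1 : ℕ) : ℝ)) ^ (m + 1) * ea := by positivity
    simp only [Nat.cast_zero] at h1
    linarith
  · have hcpos := hρ hρ0
    have hd : (0 : ℝ) < ((m + 1 : ℕ) : ℝ) := by positivity
    have h3 : (ρ : ℝ) = (c / ((m + 1 : ℕ) : ℝ)) ^ (m + 1) *
        (((m + 1).factorial : ℝ) * ((ρ : ℝ) * kapp (m + 1) c)) := by
      unfold kapp
      rw [div_pow]
      field_simp
    calc eJ ≤ ρ := h1
      _ = _ := h3
      _ ≤ _ := mul_le_mul_of_nonneg_left h2 (by positivity)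

/-- The case of dimension zero. -/
theorem main_zero (R : Type) [CommRing R] [IsLocalRing R] [IsNoetherianRing R]
    (x : Fin 0 → R)
    (hrad : (Ideal.span (Set.range x)).radical = IsLocalRing.maximalIdeal R)
    (I : Ideal R) (hI : I.radical = IsLocalRing.maximalIdeal R) (eJ ea : ℝ)
    (hJ : Filter.Tendsto
              (fun n : ℕ =>
                ((0 : ℕ).factorial : ℝ)
                  * ((Module.length R (R ⧸ (Ideal.span (Set.range x)) ^ n)).toNat : ℝ)
                  / (n : ℝ) ^ 0)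
              Filter.atTop (nhds eJ))
    (ha : Filter.Tendsto
              (fun n : ℕ =>
                ((0 : ℕ).factorial : ℝ) * ((Module.length R (R ⧸ I ^ n)).toNat : ℝ)
                  / (n : ℝ) ^ 0)
              Filter.atTop (nhds ea)) :
    eJ ≤ ea := by
  have h0 : Ideal.span (Set.range x) = ⊥ := by
    rw [Set.range_eq_empty, Ideal.span_empty]
  rw [h0] at hrad hJ
  obtain ⟨N, hN⟩ : ∃ N, I ^ N ≤ ⊥ := by
    refine Ideal.exists_pow_le_of_le_radical_of_fg ?_ (IsNoetherian.noetherian _)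
    rw [hrad, ← hI]
    exact Ideal.le_radical
  refine le_of_tendsto_of_tendsto hJ ha ?_
  filter_upwards [Filter.eventually_ge_atTop N, Filter.eventually_gt_atTop 0] with n hn hn0
  have h1 : I ^ n = ⊥ := le_bot_iff.1 ((Ideal.pow_le_pow_right hn).trans hN)
  have h2 : (⊥ : Ideal R) ^ n = ⊥ := by
    rw [← Ideal.zero_eq_bot, zero_pow hn0.ne']
  rw [h1, h2]

/-- The Huneke-Mustata-Takagi-Watanabe inequality. -/
theorem main (R : Type) [CommRing R] [IsLocalRing R] [IsNoetherianRing R]
    (p : ℕ) [Fact p.Prime] [CharP R p] (d : ℕ) (x : Fin d → R)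
    (hx : ∀ i, x i ∈ IsLocalRing.maximalIdeal R)
    (hrad : (Ideal.span (Set.range x)).radical = IsLocalRing.maximalIdeal R)
    (I : Ideal R) (hI : I.radical = IsLocalRing.maximalIdeal R) (c eJ ea : ℝ)
    (hc : Filter.Tendsto
              (fun e : ℕ =>
                ((sInf {N : ℕ | I ^ N ≤ Ideal.span (Set.range (fun i => x i ^ p ^ e))} : ℕ) : ℝ)
                  / (p : ℝ) ^ e)
              Filter.atTop (nhds c))
    (hJ : Filter.Tendsto
              (fun n : ℕ =>
                (d.factorial : ℝ)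
                  * ((Module.length R (R ⧸ (Ideal.span (Set.range x)) ^ n)).toNat : ℝ)
                  / (n : ℝ) ^ d)
              Filter.atTop (nhds eJ))
    (ha : Filter.Tendsto
              (fun n : ℕ =>
                (d.factorial : ℝ) * ((Module.length R (R ⧸ I ^ n)).toNat : ℝ)
                  / (n : ℝ) ^ d)
              Filter.atTop (nhds ea)) :
    eJ ≤ (c / (d : ℝ)) ^ d * ea := by
  cases d with
  | zero =>
    rw [pow_zero, one_mul]
    exact main_zero R x hrad I hI eJ ea hJ ha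
  | succ m => exact main_pos R p m x hx hrad I hI c eJ ea hc hJ ha

end HMTW
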