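import Mathlib

set_option autoImplicit false
open Filter Polynomial

namespace HMTW

open Algebra KaehlerDifferential

theorem fsmooth_aux (k K : Type) [Field k] [Field K] [PerfectField k] [Algebra k K] :
    Subsingleton (Algebra.H1Cotangent k K) := by
  classical
  let P : Algebra.Generators k K K := Generators.self k K
  change Subsingleton P.toExtension.H1Cotangent
  rw [P.toExtension.subsingleton_h1Cotangent, injective_iff_map_eq_zero]
  intro x hx
  obtain ⟨⟨f, hf⟩, rfl⟩ := Algebra.Extension.Cotangent.mk_surjective x
  rw [Algebra.Extension.cotangentComplex_mk] at hx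
  change MvPolynomial K k at f
  have hfker : MvPolynomial.aeval (id : K → K) f = 0 := hf
  have hder : ∀ i, MvPolynomial.aeval (id : K → K) (MvPolynomial.pderiv i f) = 0 := by
    intro i
    have := P.cotangentSpaceBasis_repr_one_tmul f i
    change _ = MvPolynomial.aeval (id : K → K) (MvPolynomial.pderiv i f) at this
    rw [← this]
    have h2 := congrArg (fun y => P.cotangentSpaceBasis.repr y i) hx
    simpa using h2
  -- the finitely generated subfield
  let K0 := IntermediateField.adjoin k ((f.vars : Finset K) : Set K)
  have hvars : ((f.vars : Finset K) : Set K) ⊆ Set.range (Subtype.val : K0 → K) := by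
    rw [Subtype.range_coe]
    exact IntermediateField.subset_adjoin k _
  obtain ⟨f0, hf0⟩ := MvPolynomial.exists_rename_eq_of_vars_subset_range f
    (Subtype.val : K0 → K) Subtype.val_injective hvars
  have hess : Algebra.EssFiniteType k K0 := by
    have : (IntermediateField.adjoin k ((f.vars : Finset K) : Set K)).FG := ⟨f.vars, rfl⟩
    exact IntermediateField.essFiniteType_iff.mpr this
  have hsm : Algebra.FormallySmooth k K0 := inferInstance
  have hcomp : ∀ g : MvPolynomial K0 k, MvPolynomial.aeval (id : K → K)
      (MvPolynomial.rename (Subtype.val : K0 → K) g)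
      = ((MvPolynomial.aeval (id : K0 → K0) g : K0) : K) := by
    intro g
    rw [MvPolynomial.aeval_rename]
    exact (MvPolynomial.comp_aeval_apply (f := (id : K0 → K0)) K0.val g).symm
  have hf0ker : MvPolynomial.aeval (id : K0 → K0) f0 = 0 := by
    apply Subtype.val_injective
    rw [← hcomp, hf0, hfker]
    rfl
  have hder0 : ∀ i : K0, MvPolynomial.aeval (id : K0 → K0) (MvPolynomial.pderiv i f0) = 0 := by
    intro i
    apply Subtype.val_injective
    rw [← hcomp]
    have := MvPolynomial.pderiv_rename (R := k) (f := (Subtype.val : K0 → K))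
      Subtype.val_injective i f0
    rw [← this, hf0, hder]
    rfl
  let P0 : Algebra.Generators k K0 K0 := Generators.self k K0
  have hsub : Subsingleton P0.toExtension.H1Cotangent := hsm.subsingleton_h1Cotangent
  rw [P0.toExtension.subsingleton_h1Cotangent, injective_iff_map_eq_zero] at hsub
  have hmem0 : f0 ∈ P0.toExtension.ker := hf0ker
  have h0 : P0.toExtension.cotangentComplex (.mk ⟨f0, hmem0⟩) = 0 := by
    rw [Algebra.Extension.cotangentComplex_mk]
    apply P0.cotangentSpaceBasis.repr.injective
    ext i
    rw [P0.cotangentSpaceBasis_repr_one_tmul f0 i]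
    rw [map_zero]
    exact congrArg Subtype.val (hder0 i)
  have h1 := hsub _ h0
  let I0 : Ideal (MvPolynomial K0 k) :=
    RingHom.ker (MvPolynomial.aeval (R := k) (id : K0 → K0)).toRingHom
  let I : Ideal (MvPolynomial K k) :=
    RingHom.ker (MvPolynomial.aeval (R := k) (id : K → K)).toRingHom
  have h2 : f0 ∈ I0 ^ 2 := by
    have h3 := congrArg Algebra.Extension.Cotangent.val h1
    exact (Ideal.toCotangent_eq_zero P0.toExtension.ker ⟨f0, hmem0⟩).mp h3
  have h4 : f ∈ I ^ 2 := by
    rw [← hf0]
    have h5 : (I0 ^ 2).map (MvPolynomial.rename (R := k)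
        (Subtype.val : K0 → K)).toRingHom ≤ I ^ 2 := by
      rw [Ideal.map_pow]
      apply Ideal.pow_right_mono
      rw [Ideal.map_le_iff_le_comap]
      intro g hg
      have hg' : MvPolynomial.aeval (id : K0 → K0) g = 0 := hg
      have : MvPolynomial.aeval (id : K → K)
        (MvPolynomial.rename (Subtype.val : K0 → K) g) = 0 := by
        rw [hcomp, hg']
        rfl
      exact this
    exact h5 (Ideal.mem_map_of_mem _ h2)
  ext
  exact (Ideal.toCotangent_eq_zero P.toExtension.ker ⟨f, hf⟩).mpr h4

theorem formallySmooth_field (k K : Type) [Field k] [Field K] [PerfectField k] [Algebra k K] :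
    Algebra.FormallySmooth k K := by
  rw [Algebra.formallySmooth_iff]
  exact ⟨inferInstance, fsmooth_aux k K⟩

end HMTW
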